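import Pool.Agent.Y696.CTK.GE2

/-!
# Project XK: the factorization for the whole class, with the criterion in both directions
-/

set_option autoImplicit false

open scoped Classical

namespace Pool.Agent.Y696.XK

open Pool.Agent.Y692.QS
open Pool.Agent.Y715.T.Rs Pool.Agent.Y715.T.Rec
open Pool.Agent.Y703.CT
open Pool.Agent.Y715.T.RecG (Pq)
open Pool.Agent.Y274.CT

/-- the primary primes that divide a product of different primary primes -/
lemma ppr_eq {n : ℕ} {π : Fin (n + 1) → Ei} (hdt : Dt π (fun _ => 1)) :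
    ppr (pD π (fun _ => 1)) = Finset.univ.image π := by
  have h1 : ((1 : ZMod 3)).val = 1 := rfl
  have hp : pD π (fun _ => 1) = ∏ i, π i := by
    unfold pD
    simp only [h1, pow_one]
  have hset : {ρ : Ei | Pq ρ ∧ ρ ∣ pD π (fun _ => 1)} = ↑(Finset.univ.image π) := by
    ext ρ
    simp only [Set.mem_ofPred_eq, Finset.coe_image, Finset.coe_univ, Set.image_univ,
      Set.mem_range]
    constructor
    · rintro ⟨h2, h3⟩
      rw [hp] at h3
      obtain ⟨i, -, hd⟩ := (h2.prime.dvd_finsetProd_iff _).1 h3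
      exact ⟨i, (eq_of_dvd (hdt.pq i) h2 hd).symm⟩
    · rintro ⟨i, rfl⟩
      refine ⟨hdt.pq i, ?_⟩
      rw [hp]
      exact Finset.dvd_prod_of_mem _ (Finset.mem_univ i)
  unfold ppr
  have hfin : {ρ : Ei | Pq ρ ∧ ρ ∣ pD π (fun _ => 1)}.Finite := by
    rw [hset]
    exact Finset.finite_toSet _
  rw [dif_pos hfin]
  ext ρ
  rw [Set.Finite.mem_toFinset, hset, Finset.mem_coe]

lemma inj_of {n : ℕ} {π : Fin (n + 1) → Ei} (hdt : Dt π (fun _ => 1)) :
    Function.Injective π := by
  intro i k h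
  by_contra hik
  exact hdt.nd i k hik (by rw [h])

/-- the criterion in both directions -/
theorem good_iff (D : Ei) (hD : ClsE D) : ∃ (n : ℕ) (π : Fin (n + 1) → Ei),
    Dt π (fun _ => 1) ∧ D = pD π (fun _ => 1) ∧ (GoodE D ↔ Ker π (fun _ => 1)) := by
  obtain ⟨n, π, hdt, hDp, h1⟩ := Pool.Agent.Y696.CTK.ge2 D hD
  refine ⟨n, π, hdt, hDp, h1, fun hk => ⟨hD.1, hD.2.1, hD.2.2, ?_⟩⟩
  have hpp : ppr D = Finset.univ.image π := by
    rw [hDp]
    exact ppr_eq hdt
  rw [hpp]
  intro v hv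
  have h2 := hk (fun i => v (π i)) (fun k => by
    have h3 := hv (π k) (Finset.mem_image_of_mem _ (Finset.mem_univ k))
    rw [Finset.sum_image fun a _ b _ h => inj_of hdt h] at h3
    simpa only [one_mul] using h3)
  intro a ha b hb
  obtain ⟨i, -, rfl⟩ := Finset.mem_image.1 ha
  obtain ⟨k, -, rfl⟩ := Finset.mem_image.1 hb
  exact h2 i k

end Pool.Agent.Y696.XK
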