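import Mathlib
import Pool.Agent.Y696.CTE.Nine
import Pool.Agent.Y696.XK.Ge3
import Pool.Agent.Y703.XK.Stm

/-!
# Project XK: the exact proportion over `ℚ(ω)` and the rank part of the conjecture
-/

set_option autoImplicit false
set_option linter.unusedVariables false

open scoped Classical

namespace Pool.Agent.Y696.XK

open NumberField IsDedekindDomain WeierstrassCurve
open Pool.Agent.Y692.QS (Ei)
open Pool.Agent.Y703.CT (ClsE GoodE)
open Pool.Agent.Y696.CTK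
open Pool.Agent.Y696.CTE

/-- `W` is an elliptic curve, `W(K)` is finite and the conclusion of `S16511` holds for `W`. -/
def RkZ {K : Type} [Field K] [NumberField K] (W : WeierstrassCurve K) : Prop :=
  W.IsElliptic ∧ Finite W.toAffine.Point ∧
  ∃ (U : Set ℂ) (Lf : ℂ → ℂ),
    IsOpen U ∧ IsConnected U ∧ {s : ℂ | (3 / 2 : ℝ) < s.re} ⊆ U ∧ (1 : ℂ) ∈ U ∧
    AnalyticOnNhd ℂ Lf U ∧ (∀ s : ℂ, (3 / 2 : ℝ) < s.re → Lf s = W.LSeries s) ∧
    (∀ r : ℕ, r < Module.finrank ℤ W.toAffine.Point → iteratedDeriv r Lf 1 = 0) ∧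
    iteratedDeriv (Module.finrank ℤ W.toAffine.Point) Lf 1 ≠ 0

lemma finrank_fin (G : Type*) [AddCommGroup G] [Finite G] : Module.finrank ℤ G = 0 := by
  apply Module.finrank_eq_zero_of_rank_eq_zero
  rw [rank_eq_zero_iff]
  intro x
  refine ⟨(Nat.card G : ℤ), ?_, ?_⟩
  · exact_mod_cast Nat.card_pos.ne'
  · rw [natCast_zsmul, card_nsmul_eq_zero']

lemma rkz_of {K : Type} [Field K] [NumberField K] (W : WeierstrassCurve K) (hΔ : W.Δ ≠ 0)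
    (hf : Finite W.toAffine.Point) {Lf : ℂ → ℂ} (hd : Differentiable ℂ Lf)
    (hs : ∀ s : ℂ, 3 / 2 < s.re → Lf s = W.LSeries s) (h1 : Lf 1 ≠ 0) : RkZ W := by
  have h0 : Module.finrank ℤ W.toAffine.Point = 0 := finrank_fin _
  refine ⟨⟨isUnit_iff_ne_zero.2 hΔ⟩, hf, Set.univ, Lf, isOpen_univ, isConnected_univ,
    Set.subset_univ _, Set.mem_univ _, fun z _ => hd.analyticAt z, fun s h => hs s h,
    fun r hr => ?_, ?_⟩
  · rw [h0] at hr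
    exact absurd hr (Nat.not_lt_zero r)
  · rw [h0, iteratedDeriv_zero]
    exact h1

lemma disc_ED {K : Type} [Field K] [CharZero K] {D : K} (h : D ≠ 0) : (ED D).Δ ≠ 0 := by
  have : (ED D).Δ = -27 * D ^ 4 := by
    simp only [ED, WeierstrassCurve.Δ, WeierstrassCurve.b₂, WeierstrassCurve.b₄,
      WeierstrassCurve.b₆, WeierstrassCurve.b₈]
    ring
  rw [this]
  exact mul_ne_zero (by norm_num) (pow_ne_zero _ h)

section
variable {K : Type} [Field K] [NumberField K] (j : Ei ≃+* 𝓞 K)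

lemma cls_iff (hj : ∀ z : Ei, Algebra.norm ℤ (j z) = Pool.Agent.Y692.QS.nr z) (D : Ei) :
    ClsK (j D) ↔ ClsE D := by
  unfold ClsK ClsE
  have e1 : (3 : 𝓞 K) ∣ j D - 1 ↔ (3 : Ei) ∣ D - 1 := by
    have : j D - 1 = j (D - 1) := by rw [map_sub, map_one]
    rw [this, ← map_ofNat j 3, map_dvd_iff j]
  have e2 : Squarefree (j D) ↔ Squarefree D := by
    constructor
    · intro h x hx
      have h1 := h (j x) (by rw [← map_mul]; exact map_dvd j hx)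
      exact (MulEquiv.isUnit_map j).1 h1
    · intro h x hx
      obtain ⟨y, rfl⟩ := j.surjective x
      rw [← map_mul, map_dvd_iff j] at hx
      exact (h y hx).map j
  rw [e1, e2, hj]

lemma img_ncard (hj : ∀ z : Ei, Algebra.norm ℤ (j z) = Pool.Agent.Y692.QS.nr z) (X : ℕ) (p : Ei → Prop)
    (q : 𝓞 K → Prop) (hpq : ∀ D, p D ↔ q (j D)) :
    {D : 𝓞 K | Algebra.norm ℤ D ≤ X ∧ q D}.ncard = {D : Ei | Pool.Agent.Y692.QS.nr D ≤ X ∧ p D}.ncard := by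
  rw [← Set.ncard_image_of_injective _ j.injective]
  congr 1
  ext D
  obtain ⟨z, rfl⟩ := j.surjective D
  simp only [Set.mem_ofPred_eq, Set.mem_image]
  constructor
  · rintro ⟨h1, h2⟩
    rw [hj] at h1
    exact ⟨z, ⟨h1, (hpq z).2 h2⟩, rfl⟩
  · rintro ⟨y, ⟨h1, h2⟩, h3⟩
    have := j.injective h3
    subst this
    rw [hj]
    exact ⟨h1, (hpq _).1 h2⟩

/-- the good elements -/
lemma good_tri (hj : ∀ z : Ei, Algebra.norm ℤ (j z) = Pool.Agent.Y692.QS.nr z) (D : Ei) :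
    GoodE D ↔ ClsK (j D) ∧ Tri (j D) := by
  constructor
  · intro h
    have hD : ClsE D := ⟨h.1, h.2.1, h.2.2.1⟩
    refine ⟨(cls_iff j hj D).2 hD, ?_⟩
    obtain ⟨n, π, hdt, rfl, hg⟩ := good_iff D hD
    exact (tri_iff j parts hdt hD.2.2).2 (hg.1 h)
  · rintro ⟨h1, h2⟩
    have hD : ClsE D := (cls_iff j hj D).1 h1
    obtain ⟨n, π, hdt, rfl, hg⟩ := good_iff D hD
    exact hg.2 ((tri_iff j parts hdt hD.2.2).1 h2)

end

/-- The final statement. -/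
theorem final (hden : Pool.Agent.Y703.XK.S_DEN) (hc9 : Pool.Agent.Y703.XK.S_C9)
    (K : Type) [Field K] [NumberField K] [IsCyclotomicExtension {3} ℚ K] :
    (∃ c : ℝ, 0 < c ∧ ∃ X₀ : ℕ, ∀ X : ℕ, X₀ ≤ X →
      c * X ≤ ({D : 𝓞 K | Algebra.norm ℤ D ≤ X ∧ ClsK D}.ncard : ℝ)) ∧
    (∀ D : 𝓞 K, ClsK D → CritK D ∧
      (∃ (F : Type) (_ : Field F) (_ : NumberField F) (_ : Algebra K F) (θ : F),
        Module.finrank K F = 3 ∧ θ ^ 3 = algebraMap K F D) ∧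
      (Tri D → RkZ (ED (D : K)) ∧
        ∀ (F : Type) [Field F] [NumberField F] [Algebra K F] (θ : F),
          Module.finrank K F = 3 → θ ^ 3 = algebraMap K F D → RkZ (ED (1 : F)))) ∧
    Filter.Tendsto (fun X : ℕ =>
      ({D : 𝓞 K | Algebra.norm ℤ D ≤ X ∧ ClsK D ∧ Tri D}.ncard : ℝ) /
        ({D : 𝓞 K | Algebra.norm ℤ D ≤ X ∧ ClsK D}.ncard : ℝ)) Filter.atTop
      (nhds (∏' i : ℕ, (1 - (1 / 3 : ℝ) ^ (2 * i + 1)))) ∧
    (0.639 : ℝ) < ∏' i : ℕ, (1 - (1 / 3 : ℝ) ^ (2 * i + 1)) ∧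
    ∏' i : ℕ, (1 - (1 / 3 : ℝ) ^ (2 * i + 1)) < 0.6391 := by
  obtain ⟨⟨j, hj⟩, -⟩ := Pool.Agent.Y455.CTK.jex K
  obtain ⟨h1, h2, -⟩ := Pool.Agent.Y696.CTK.final K
  obtain ⟨-, a2, -⟩ := final9 K
  refine ⟨h1, fun D hD => ⟨(h2 D hD).2, (a2 D hD).1, fun ht => ⟨?_, ?_⟩⟩, ?_, hc9.2.2.2.1,
    hc9.2.2.2.2⟩
  · obtain ⟨⟨-, -, Lf, c, b1, b2, b3, -⟩, -⟩ := h2 D hD
    have hD0 : (D : K) ≠ 0 := by
      intro h
      exact hD.2.1.ne_zero (NumberField.RingOfIntegers.coe_injective (h.trans (map_zero _).symm))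
    exact rkz_of _ (disc_ED hD0) ht.1 b1 (fun s hs => (b2 s hs).2) (b3 ht)
  · intro F _ _ _ θ hd hθ
    obtain ⟨⟨ω, n, π, χ, hω, hf⟩, hcr⟩ := (h2 D hD).2
    have hlap := (hcr ω n π χ hω hf).1 ht
    obtain ⟨⟨⟨Lf, c1, c2, c3⟩, c4, -⟩, -⟩ :=
      ((a2 D hD).2.2 F θ hd hθ).2 ω n π χ hω hf hlap
    exact rkz_of _ (disc_ED one_ne_zero) c4 c1 (fun s hs => (c2 s hs).2) c3
  · have e1 : ∀ X : ℕ, {D : 𝓞 K | Algebra.norm ℤ D ≤ X ∧ ClsK D ∧ Tri D}.ncard =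
        {D : Ei | Pool.Agent.Y692.QS.nr D ≤ X ∧ GoodE D}.ncard := fun X =>
      img_ncard j hj X GoodE (fun D => ClsK D ∧ Tri D) (good_tri j hj)
    have e2 : ∀ X : ℕ, {D : 𝓞 K | Algebra.norm ℤ D ≤ X ∧ ClsK D}.ncard =
        {D : Ei | Pool.Agent.Y692.QS.nr D ≤ X ∧ ClsE D}.ncard := fun X =>
      img_ncard j hj X ClsE ClsK fun D => (cls_iff j hj D).symm
    simp only [e1, e2]
    exact hden

end Pool.Agent.Y696.XK
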